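import Pool.Agent.N12.PH.Ht
import Pool.Agent.TH915.PW.APCount

/-!
# Windows of primes for monomials

Owner helper12.
-/

set_option autoImplicit false

namespace Pool.Agent.N12.PH

open Filter Topology Set
open Pool.Agent.N12.MH.Gp (gp)

noncomputable section

/-- the windows of the primes `u < p ≤ v`, `p ≡ r` modulo `d`, for the function `α t ^ c` -/
theorem win_monomial (c : ℝ) (hc : 0 < c) (α : ℝ) (hα : 0 < α) (κ : ℝ) (hκ : 0 < κ) (d r : ℕ) (hd : 0 < d)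
    (hr : r.Coprime d) (δ : ℝ) (hδ : 0 < δ) (hδ1 : δ ≤ 1) : ∃ u₀ : ℕ, ∀ u v : ℕ, u₀ ≤ u → (1 + δ) * u ≤ v → v ≤ 2 * u →
    ∀ T : ℝ, T ≤ α * (u : ℝ) ^ c → α * (v : ℝ) ^ c ≤ 2 * T →
      Win (gp {c} fun _ => α) κ (c + 1) 0 T u v d r := by
  have h1 := Pool.Agent.TH915.PW.card_primes d hd r hr δ κ hδ hδ1 hκ
  obtain ⟨Z₀, hZ₀⟩ := eventually_atTop.mp (h1.and (eventually_ge_atTop (max α 1)))
  refine ⟨⌈Z₀⌉₊, fun u v hu hv1 hv2 T hT1 hT2 => ?_⟩
  have huZ : Z₀ ≤ u := (Nat.le_ceil Z₀).trans (by exact_mod_cast hu)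
  obtain ⟨h2, h3⟩ := hZ₀ u huZ
  have hgp : ∀ t : ℝ, gp {c} (fun _ => α) t = α * t ^ c := by
    intro t
    unfold gp
    rw [Finset.sum_singleton]
  have hu1 : (1 : ℝ) ≤ u := (le_max_right _ _).trans h3
  have huα : α ≤ u := (le_max_left _ _).trans h3
  refine ⟨hd, hv2, ?_, ?_, fun p hp => ?_⟩
  · refine h2.trans ?_
    have h4 : ⌊(1 + δ) * (u : ℝ)⌋₊ ≤ v := by
      have : ((⌊(1 + δ) * (u : ℝ)⌋₊ : ℕ) : ℝ) ≤ v := (Nat.floor_le (by positivity)).trans hv1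
      exact_mod_cast this
    have h5 := Finset.card_le_card (Finset.filter_subset_filter (fun n => n.Prime ∧ n ≡ r [MOD d])
      (Finset.Ioc_subset_Ioc_right (a := u) h4))
    rw [Nat.floor_natCast]
    exact_mod_cast h5
  · refine hT1.trans ?_
    rw [Real.rpow_add (by linarith), Real.rpow_one, mul_comm]
    exact mul_le_mul_of_nonneg_left huα (by positivity)
  · rw [pset, Finset.mem_filter, Finset.mem_Ioc] at hp
    rw [hgp, add_zero]
    have h5 : (u : ℝ) ≤ p := by exact_mod_cast hp.1.1.le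
    have h6 : (p : ℝ) ≤ v := by exact_mod_cast hp.1.2
    constructor
    · exact hT1.trans (mul_le_mul_of_nonneg_left (Real.rpow_le_rpow (by linarith) h5 hc.le) hα.le)
    · exact le_trans (mul_le_mul_of_nonneg_left (Real.rpow_le_rpow (by linarith) h6 hc.le) hα.le) hT2

end

end Pool.Agent.N12.PH
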