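import Pool.Agent.N12.MH.Gp

set_option autoImplicit false

/-! # Integer combinations of generalised polynomials with distinct leading exponents -/

/-! Adapted by helper12 from `Pool/Agent/Y961/JR` (real coefficients `h j ≥ 1` in the place of positive integers). -/

namespace Pool.Agent.N12.PH

open Finset Filter
open Pool.Agent.N12.MH.Gp (ev_pow pw pw_der lower_small)
open Pool.Agent.TH915.PW (Hy)

/-- the derivative of order `m` of the combination with coefficients `h j` of the generalised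
polynomials `∑ x ∈ F j, a j x t ^ x` -/
noncomputable def gg {r : ℕ} (F : Fin r → Finset ℝ) (a : Fin r → ℝ → ℝ) (h : Fin r → ℝ) (m : ℕ)
    (t : ℝ) : ℝ :=
  ∑ j, (h j : ℝ) * ∑ x ∈ F j, pw (a j x) x m t

lemma gg_der {r : ℕ} (F : Fin r → Finset ℝ) (a : Fin r → ℝ → ℝ) (h : Fin r → ℝ) (m : ℕ) (t : ℝ)
    (ht : 0 < t) : HasDerivAt (gg F a h m) (gg F a h (m + 1) t) t := by
  unfold gg
  exact HasDerivAt.fun_sum fun j _ =>
    (HasDerivAt.fun_sum fun x _ => pw_der (a j x) x m t ht).const_mul _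

lemma gg_zero {r : ℕ} (F : Fin r → Finset ℝ) (a : Fin r → ℝ → ℝ) (h : Fin r → ℝ) (t : ℝ) :
    gg F a h 0 t = ∑ j, (h j : ℝ) * ∑ x ∈ F j, a j x * t ^ x := by
  unfold gg
  apply Finset.sum_congr rfl
  intro j _
  congr 1
  apply Finset.sum_congr rfl
  intro x _
  unfold pw
  simp

lemma gg_neg {r : ℕ} (F : Fin r → Finset ℝ) (a : Fin r → ℝ → ℝ) (h : Fin r → ℝ) (m : ℕ) (t : ℝ) :
    gg F a (-h) m t = -gg F a h m t := by
  unfold gg
  rw [← Finset.sum_neg_distrib]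
  apply Finset.sum_congr rfl
  intro j _
  simp

/-- terms of smaller order with coefficients of size a small power are negligible -/
lemma other_small (F : Finset ℝ) (a : ℝ → ℝ) (c₁ c : ℝ) (hF : ∀ x ∈ F, x ≤ c₁) (hc : c₁ < c)
    (m : ℕ) (η₀ : ℝ) (hη₀ : η₀ = (c - c₁) / 4) (ρ : ℝ) (hρ : 0 < ρ) :
    ∀ᶠ t : ℝ in atTop, ∀ M : ℝ, 0 < M → M ≤ t → ∀ η : ℝ, 0 < η → η ≤ η₀ → ∀ y : ℝ, |y| ≤ M ^ η →
      |y * ∑ x ∈ F, pw (a x) x m t| ≤ ρ * t ^ (c - m) := by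
  have h1 := lower_small F a ((c₁ + c) / 2) (fun x hx => by have := hF x hx; linarith) m 1 one_pos
  filter_upwards [h1, ev_pow ((c₁ + c) / 2 - m + η₀) (c - m) (1 / ρ) (by linarith),
    eventually_ge_atTop (1 : ℝ)] with t h2 h3 h4
  intro M hM0 hM η hη hη1 y hy
  have ht0 : 0 < t := by linarith
  rw [abs_mul]
  have h5 : |y| ≤ t ^ η₀ := by
    refine hy.trans ((Real.rpow_le_rpow hM0.le hM hη.le).trans ?_)
    exact Real.rpow_le_rpow_of_exponent_le h4 hη1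
  rw [one_div, inv_mul_le_iff₀ hρ] at h3
  refine le_trans ?_ h3
  calc |y| * |∑ x ∈ F, pw (a x) x m t| ≤ t ^ η₀ * (1 * t ^ ((c₁ + c) / 2 - m)) := by
        apply mul_le_mul h5 h2 (abs_nonneg _) (Real.rpow_nonneg ht0.le _)
    _ = t ^ ((c₁ + c) / 2 - m + η₀) := by
        rw [one_mul, ← Real.rpow_add ht0]
        congr 1
        ring

/-- hypotheses on the family -/
structure Fam {r : ℕ} (F : Fin r → Finset ℝ) (a : Fin r → ℝ → ℝ) (c : Fin r → ℝ) : Prop where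
  mem : ∀ j, c j ∈ F j
  le : ∀ j, ∀ x ∈ F j, x ≤ c j
  apos : ∀ j, 0 < a j (c j)
  cpos : ∀ j, 0 < c j
  nonint : ∀ j, ∀ m : ℕ, c j ≠ m
  inj : Function.Injective c

section

variable {r : ℕ} {F : Fin r → Finset ℝ} {a : Fin r → ℝ → ℝ} {c : Fin r → ℝ}

/-- the leading constant -/
noncomputable def CC (a : Fin r → ℝ → ℝ) (c : Fin r → ℝ) (j : Fin r) : ℝ :=
  a j (c j) * ∏ i ∈ range (⌊c j⌋₊ + 1), (c j - i)

lemma CC_pos (H : Fam F a c) (j : Fin r) : 0 < CC a c j := by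
  unfold CC
  apply mul_pos (H.apos j)
  apply prod_pos
  intro i hi
  have h1 : i ≤ ⌊c j⌋₊ := Nat.lt_succ_iff.mp (mem_range.mp hi)
  have h2 : (i : ℝ) ≤ ⌊c j⌋₊ := by exact_mod_cast h1
  have h3 : (⌊c j⌋₊ : ℝ) ≤ c j := Nat.floor_le (H.cpos j).le
  have h4 : (⌊c j⌋₊ : ℝ) ≠ c j := (H.nonint j _).symm
  have h5 := lt_of_le_of_ne h3 h4
  linarith

/-- the derivative of order `m` of the combination is close to its main term -/
lemma gg_main (H : Fam F a c) (j₀ : Fin r) (m : ℕ) (ρ : ℝ) (hρ : 0 < ρ) :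
    ∃ η₀ : ℝ, 0 < η₀ ∧ ∀ᶠ t : ℝ in atTop, ∀ M : ℝ, 0 < M → M ≤ t → ∀ η : ℝ, 0 < η → η ≤ η₀ →
      ∀ h : Fin r → ℝ, 1 ≤ h j₀ → (∀ j, c j₀ < c j → h j = 0) → (∀ j, |(h j : ℝ)| ≤ M ^ η) →
      |gg F a h m t - h j₀ * pw (a j₀ (c j₀)) (c j₀) m t| ≤ h j₀ * (ρ * t ^ (c j₀ - m)) := by
  classical
  -- the other terms
  have hr0 : (0 : ℝ) < 2 * (r + 1) := by positivity
  have h1 : ∀ j : Fin r, ∃ ηj : ℝ, 0 < ηj ∧ ∀ᶠ t : ℝ in atTop, ∀ M : ℝ, 0 < M → M ≤ t →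
      ∀ η : ℝ, 0 < η → η ≤ ηj → ∀ h : Fin r → ℝ, (∀ j, c j₀ < c j → h j = 0) →
      (∀ j, |(h j : ℝ)| ≤ M ^ η) → j ≠ j₀ →
      |(h j : ℝ) * ∑ x ∈ F j, pw (a j x) x m t| ≤ ρ / (2 * (r + 1)) * t ^ (c j₀ - m) := by
    intro j
    rcases lt_or_ge (c j) (c j₀) with hlt | hge
    · refine ⟨(c j₀ - c j) / 4, by linarith, ?_⟩
      filter_upwards [other_small (F j) (a j) (c j) (c j₀) (H.le j) hlt m _ rfl
        (ρ / (2 * (r + 1))) (by positivity)] with t ht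
      intro M hM0 hM η hη hη1 h _ hh _
      exact ht M hM0 hM η hη hη1 (h j) (hh j)
    · refine ⟨1, one_pos, ?_⟩
      filter_upwards [eventually_gt_atTop (0 : ℝ)] with t ht
      intro M hM0 hM η hη hη1 h h0 _ hne
      have hlt : c j₀ < c j := lt_of_le_of_ne hge (fun h => hne (H.inj h).symm)
      rw [h0 j hlt]
      simp only [Int.cast_zero, zero_mul, abs_zero]
      have := Real.rpow_pos_of_pos ht (c j₀ - m)
      positivity
  choose ηj hηj h2 using h1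
  obtain ⟨η₀, hη₀, hle⟩ : ∃ η₀ : ℝ, 0 < η₀ ∧ ∀ j, η₀ ≤ ηj j := by
    refine ⟨Finset.univ.inf' ⟨j₀, Finset.mem_univ _⟩ ηj, ?_, fun j => Finset.inf'_le _ (Finset.mem_univ j)⟩
    rw [Finset.lt_inf'_iff]
    exact fun j _ => hηj j
  refine ⟨η₀, hη₀, ?_⟩
  have h3 := lower_small ((F j₀).erase (c j₀)) (a j₀) (c j₀) (fun x hx => by
    rw [Finset.mem_erase] at hx
    exact lt_of_le_of_ne (H.le j₀ x hx.2) hx.1) m (ρ / 2) (by positivity)
  filter_upwards [eventually_all.mpr h2, h3, eventually_gt_atTop (0 : ℝ)] with t ht1 ht2 ht3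
  intro M hM0 hM η hη hη1 h hpos h0 hh
  have hh1 : (1 : ℝ) ≤ h j₀ := by linarith [hpos]
  have htp := Real.rpow_pos_of_pos ht3 (c j₀ - m)
  have e1 : gg F a h m t - h j₀ * pw (a j₀ (c j₀)) (c j₀) m t =
      h j₀ * ∑ x ∈ (F j₀).erase (c j₀), pw (a j₀ x) x m t +
      ∑ j ∈ Finset.univ.erase j₀, (h j : ℝ) * ∑ x ∈ F j, pw (a j x) x m t := by
    unfold gg
    rw [← Finset.add_sum_erase Finset.univ _ (Finset.mem_univ j₀),
      ← Finset.add_sum_erase (F j₀) _ (H.mem j₀)]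
    ring
  rw [e1]
  have e2 : |(h j₀ : ℝ) * ∑ x ∈ (F j₀).erase (c j₀), pw (a j₀ x) x m t| ≤
      h j₀ * (ρ / 2 * t ^ (c j₀ - m)) := by
    rw [abs_mul, abs_of_nonneg (by linarith : (0 : ℝ) ≤ h j₀)]
    exact mul_le_mul_of_nonneg_left ht2 (by linarith)
  have e3 : |∑ j ∈ Finset.univ.erase j₀, (h j : ℝ) * ∑ x ∈ F j, pw (a j x) x m t| ≤
      ρ / 2 * t ^ (c j₀ - m) := by
    calc _ ≤ ∑ j ∈ Finset.univ.erase j₀, |(h j : ℝ) * ∑ x ∈ F j, pw (a j x) x m t| :=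
          Finset.abs_sum_le_sum_abs _ _
      _ ≤ ∑ j ∈ Finset.univ.erase j₀, ρ / (2 * (r + 1)) * t ^ (c j₀ - m) := by
          apply Finset.sum_le_sum
          intro j hj
          exact ht1 j M hM0 hM η hη (hη1.trans (hle j)) h h0 hh (Finset.ne_of_mem_erase hj)
      _ = ((Finset.univ.erase j₀).card : ℝ) * (ρ / (2 * (r + 1)) * t ^ (c j₀ - m)) := by
          rw [sum_const, nsmul_eq_mul]
      _ ≤ (r + 1) * (ρ / (2 * (r + 1)) * t ^ (c j₀ - m)) := by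
          apply mul_le_mul_of_nonneg_right _ (by positivity)
          have : (Finset.univ.erase j₀).card ≤ r := by
            refine (Finset.card_le_card (Finset.erase_subset _ _)).trans ?_
            rw [Finset.card_univ, Fintype.card_fin]
          have h5 : ((Finset.univ.erase j₀).card : ℝ) ≤ r := by exact_mod_cast this
          linarith
      _ = ρ / 2 * t ^ (c j₀ - m) := by field_simp
  calc _ ≤ _ := abs_add_le _ _
    _ ≤ h j₀ * (ρ / 2 * t ^ (c j₀ - m)) + ρ / 2 * t ^ (c j₀ - m) := add_le_add e2 e3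
    _ ≤ h j₀ * (ρ / 2 * t ^ (c j₀ - m)) + h j₀ * (ρ / 2 * t ^ (c j₀ - m)) := by
        have : 0 ≤ ρ / 2 * t ^ (c j₀ - m) := by positivity
        nlinarith
    _ = _ := by ring

end

end Pool.Agent.N12.PH
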