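import Pool.Agent.N12.PH.Va
import Pool.Agent.TH915.PW.PrimeSum

/-!
# Exponential sums over the primes of a residue class, real frequencies

Owner helper12.
-/

set_option autoImplicit false

namespace Pool.Agent.N12.PH

open Finset Filter
open Pool.Agent.H469R2.NK (e norm_e e_add)
open Pool.Agent.N12.MH.Gp (ev_pow pw gp)
open Pool.Agent.TH915.PW (class_bound prime_bound abel_bound)

/-- the primes `u < p ≤ v` which are congruent to `r` modulo `d` -/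
def pset (u v d r : ℕ) : Finset ℕ := (Ioc u v).filter fun n => n.Prime ∧ n ≡ r [MOD d]

/-- **Exponential sums over primes.** -/
theorem prime_sum (F : Finset ℝ) (a : ℝ → ℝ) (c : ℝ) (hc : 0 < c) (hcn : ∀ m : ℕ, c ≠ m) (hcF : c ∈ F)
    (hmax : ∀ x ∈ F, x ≤ c) (hac : 0 < a c) : ∃ η : ℝ, 0 < η ∧ η ≤ 1 / 4 ∧ ∃ N₀ : ℕ, ∀ N : ℕ, N₀ ≤ N →
    ∀ θ : ℝ, (N : ℝ) ^ (-η) ≤ θ → θ ≤ (N : ℝ) ^ η → ∀ d r N' : ℕ, 0 < d → N ≤ N' → N' ≤ 2 * N →
      ‖∑ p ∈ pset N N' d r, e (θ * gp F a p)‖ ≤ (N : ℝ) ^ (1 - η) := by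
  classical
  have H : Fam (fun _ : Fin 1 => F) (fun _ => a) (fun _ => c) :=
    ⟨fun _ => hcF, fun _ => hmax, fun _ => hac, fun _ => hc, fun _ => hcn, Function.injective_of_subsingleton _⟩
  obtain ⟨η, τ, hη, hη4, hτ, hτη, x₀, hvm⟩ := vm_pos H 0
  have hτ16 : τ ≤ 1 / 16 := by linarith
  have hlogev : ∀ᶠ Z : ℝ in atTop, Real.log (2 * Z) ≤ Z ^ (1 / 4 : ℝ) := by
    have e1 := (isLittleO_log_rpow_atTop (show (0 : ℝ) < 1 / 8 by norm_num)).def
      (show (0 : ℝ) < 1 by norm_num)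
    have e2 : Tendsto (fun Z : ℝ => 2 * Z) atTop atTop := tendsto_id.const_mul_atTop (by norm_num)
    filter_upwards [e2.eventually e1, eventually_ge_atTop (1 : ℝ),
      ev_pow (1 / 8) (1 / 4) (2 ^ (1 / 8 : ℝ)) (by norm_num)] with Z e3 e4 e5
    rw [Real.norm_eq_abs, Real.norm_eq_abs, abs_of_nonneg (Real.log_nonneg (by linarith)),
      abs_of_nonneg (by positivity), one_mul, Real.mul_rpow (by norm_num) (by linarith)] at e3
    linarith
  obtain ⟨ε, hεdef⟩ : ∃ ε : ℝ, ε = τ / 2 := ⟨_, rfl⟩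
  have hε : 0 < ε := by rw [hεdef]; positivity
  have hεη : 2 * ε < η := by rw [hεdef]; linarith
  have hev : ∀ᶠ Z : ℝ in atTop, Real.log (2 * Z) ≤ Z ^ (1 / 4 : ℝ) ∧ 4 ≤ Z ∧ x₀ ≤ Z ∧
      4 * Z ^ (3 / 4 : ℝ) ≤ Z ^ (1 - τ) ∧ 2 * Z ^ (1 - τ) ≤ Z ^ (1 - ε) ∧ 2 * Z ^ (2 * ε) ≤ Z ^ η := by
    filter_upwards [hlogev, eventually_ge_atTop (4 : ℝ), eventually_ge_atTop x₀,
      ev_pow (3 / 4) (1 - τ) 4 (by linarith), ev_pow (1 - τ) (1 - ε) 2 (by rw [hεdef]; linarith),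
      ev_pow (2 * ε) η 2 hεη] with Z h1 h2 h3 h4 h5 h6
    exact ⟨h1, h2, h3, h4, h5, h6⟩
  obtain ⟨Z₀, hZ₀⟩ := eventually_atTop.mp hev
  refine ⟨ε, hε, by rw [hεdef]; linarith, ⌈Z₀⌉₊ + 4, ?_⟩
  intro N hN θ hθ1 hθ2 d r N' hd hNN' hN'
  have hNZ : Z₀ ≤ N := (Nat.le_ceil Z₀).trans (by exact_mod_cast (by omega : ⌈Z₀⌉₊ ≤ N))
  obtain ⟨hlog, hN4, hNx, hp1, hp2, hp3⟩ := hZ₀ N hNZ
  have hN4' : 4 ≤ N := by exact_mod_cast hN4
  have hN0 : (0 : ℝ) < N := by linarith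
  have hN1 : (1 : ℝ) ≤ N := by linarith
  have hNε0 : 0 < (N : ℝ) ^ ε := Real.rpow_pos_of_pos hN0 _
  have hNε1 : 1 ≤ (N : ℝ) ^ ε := Real.one_le_rpow hN1 hε.le
  -- the frequency as a quotient
  set q : ℕ := ⌈(N : ℝ) ^ ε⌉₊ with hq
  have hq1 : (N : ℝ) ^ ε ≤ q := Nat.le_ceil _
  have hq2 : (q : ℝ) ≤ 2 * (N : ℝ) ^ ε := by
    have := Nat.ceil_lt_add_one hNε0.le
    linarith
  have hq0 : (0 : ℝ) < q := by linarith
  have hq0' : 1 ≤ q := by exact_mod_cast hq0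
  have hsq : (N : ℝ) ^ ε * (N : ℝ) ^ ε = (N : ℝ) ^ (2 * ε) := by
    rw [← Real.rpow_add hN0]
    congr 1
    ring
  have hqη : (q : ℝ) ≤ (N : ℝ) ^ η := by
    refine hq2.trans (le_trans ?_ hp3)
    rw [← hsq]
    nlinarith
  have hθ0 : 0 < θ := lt_of_lt_of_le (Real.rpow_pos_of_pos hN0 _) hθ1
  have hh1 : 1 ≤ θ * q := by
    calc (1 : ℝ) = (N : ℝ) ^ (-ε) * (N : ℝ) ^ ε := by
          rw [← Real.rpow_add hN0, neg_add_cancel, Real.rpow_zero]
      _ ≤ θ * q := mul_le_mul hθ1 hq1 hNε0.le hθ0.le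
  have hh2 : |θ * q| ≤ (N : ℝ) ^ η := by
    rw [abs_of_pos (by linarith)]
    refine le_trans ?_ hp3
    calc θ * q ≤ (N : ℝ) ^ ε * (2 * (N : ℝ) ^ ε) := mul_le_mul hθ2 hq2 hq0.le hNε0.le
      _ = 2 * (N : ℝ) ^ (2 * ε) := by rw [← hsq]; ring
  have hEE : ∀ (β : ℝ) (n : ℕ), EE (fun _ : Fin 1 => F) (fun _ => a) (fun _ => θ * q) q β n =
      e (θ * gp F a n) * e (β * n) := by
    intro β n
    rw [← e_add]
    unfold EE
    rw [gg_zero]
    congr 1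
    rw [Fin.sum_univ_one]
    unfold gp
    field_simp
  set E : ℝ := 2 * (N : ℝ) ^ (1 - τ) with hE
  have hE0 : 0 ≤ E := by positivity
  have htot : ∀ (β : ℝ) (t : ℕ), N ≤ t → t ≤ 2 * N →
      ‖∑ n ∈ Ioc N t, (((if n.Prime then Real.log n else 0 : ℝ)) : ℂ) * (e (θ * gp F a n) * e (β * n))‖ ≤ E := by
    intro β t ht1 ht2
    have htr : (t : ℝ) ≤ 2 * N := by exact_mod_cast ht2
    have ht0 : 1 ≤ t := by omega
    have htlog : 2 * √(t : ℝ) * Real.log t ≤ (N : ℝ) ^ (1 - τ) := by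
      have h7 : √(t : ℝ) ≤ 2 * (N : ℝ) ^ (1 / 2 : ℝ) := by
        rw [← Real.sqrt_eq_rpow]
        calc √(t : ℝ) ≤ √(2 ^ 2 * N) := Real.sqrt_le_sqrt (by linarith)
          _ = 2 * √N := by rw [Real.sqrt_mul (by norm_num), Real.sqrt_sq (by norm_num)]
      have h8 : Real.log (t : ℝ) ≤ (N : ℝ) ^ (1 / 4 : ℝ) := by
        refine le_trans ?_ hlog
        apply Real.log_le_log _ htr
        exact_mod_cast ht0
      have h9 : 0 ≤ Real.log (t : ℝ) := Real.log_nonneg (by exact_mod_cast ht0)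
      calc 2 * √(t : ℝ) * Real.log t ≤ 2 * (2 * (N : ℝ) ^ (1 / 2 : ℝ)) * (N : ℝ) ^ (1 / 4 : ℝ) := by
            gcongr
        _ = 4 * ((N : ℝ) ^ (1 / 2 : ℝ) * (N : ℝ) ^ (1 / 4 : ℝ)) := by ring
        _ = 4 * (N : ℝ) ^ (3 / 4 : ℝ) := by rw [← Real.rpow_add hN0]; norm_num
        _ ≤ _ := hp1
    have hsplit := hvm N hNx (fun _ => θ * q) hh1 (fun j hj => absurd hj (lt_irrefl _)) (fun _ => hh2)
      q hq0' hqη β t ht1 ht2
    simp only [hEE] at hsplit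
    have h2 := prime_bound N t ht0 (fun n => e (θ * gp F a n) * e (β * n))
      (fun n => by rw [norm_mul, norm_e, norm_e, one_mul]) _ hsplit
    refine h2.trans ?_
    rw [hE]
    linarith
  set A : ℕ → ℂ := fun n => if n ≡ r [MOD d] then
    (((if n.Prime then Real.log n else 0 : ℝ)) : ℂ) * e (θ * gp F a n) else 0 with hA
  have hcls : ∀ t : ℕ, N < t → t ≤ N' → ‖∑ n ∈ Ioc N t, A n‖ ≤ E := by
    intro t ht1 ht2
    have h1 := class_bound (Ioc N t)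
      (fun n => (((if n.Prime then Real.log n else 0 : ℝ)) : ℂ) * e (θ * gp F a n)) d hd r E (by
        intro j _
        have h2 := htot ((j : ℝ) / d) t ht1.le (by omega)
        refine le_trans (le_of_eq ?_) h2
        congr 1
        refine sum_congr rfl fun n _ => ?_
        ring)
    rw [sum_filter] at h1
    exact h1
  set w : ℕ → ℝ := fun n => (Real.log n)⁻¹ with hw
  have hlogpos : ∀ n : ℕ, N < n → 1 ≤ Real.log n := by
    intro n hn
    rw [Real.le_log_iff_exp_le (by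
      have : 0 < n := by omega
      exact_mod_cast this)]
    have h1 := Real.exp_one_lt_d9
    have h2 : (5 : ℝ) ≤ n := by exact_mod_cast (by omega : 5 ≤ n)
    linarith
  have hNE : 2 * (N : ℝ) ^ (1 - τ) ≤ (N : ℝ) ^ (1 - ε) := hp2
  rcases Nat.eq_or_lt_of_le hNN' with heq | hlt
  · have hempty : pset N N' d r = ∅ := by
      unfold pset
      rw [← heq, Finset.Ioc_self, Finset.filter_empty]
    rw [hempty, sum_empty, norm_zero]
    positivity
  have hab := abel_bound w A N E (fun n hn => by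
      have := hlogpos n hn
      rw [hw]
      positivity) (fun n hn => by
      have h1 := hlogpos n hn
      rw [hw]
      simp only
      apply inv_anti₀ (by linarith)
      apply Real.log_le_log
      · have : 0 < n := by omega
        exact_mod_cast this
      · push_cast
        linarith) N' hlt hcls
  have hsum : ∑ p ∈ pset N N' d r, e (θ * gp F a p) = ∑ i ∈ Ioc N N', (w i : ℂ) * A i := by
    rw [pset, sum_filter]
    refine sum_congr rfl fun n hn => ?_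
    have hn0 := hlogpos n (Finset.mem_Ioc.mp hn).1
    rw [hA, hw]
    simp only
    by_cases h1 : n ≡ r [MOD d]
    · by_cases h2 : n.Prime
      · rw [if_pos ⟨h2, h1⟩, if_pos h1, if_pos h2, ← mul_assoc]
        rw [← Complex.ofReal_mul, inv_mul_cancel₀ (by linarith), Complex.ofReal_one, one_mul]
      · rw [if_neg (fun h => h2 h.1), if_pos h1, if_neg h2]
        simp
    · rw [if_neg (fun h => h1 h.2), if_neg h1, mul_zero]
  rw [hsum]
  refine hab.trans ?_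
  have hw1 : w (N + 1) ≤ 1 := by
    rw [hw]
    exact inv_le_one_of_one_le₀ (hlogpos (N + 1) (by omega))
  calc w (N + 1) * E ≤ 1 * E := mul_le_mul_of_nonneg_right hw1 hE0
    _ = 2 * (N : ℝ) ^ (1 - τ) := by rw [one_mul]
    _ ≤ _ := hNE

end Pool.Agent.N12.PH
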