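import Pool.Agent.N12.MH.GpHt
import Pool.Agent.N12.PH.Pr

/-!
# Heights over the primes

Owner helper12.
-/

set_option autoImplicit false

namespace Pool.Agent.N12.PH

open Complex MeasureTheory Filter Topology Set
open Pool.Agent.H469R2.NK (e norm_e)
open Pool.Agent.N12.MH.Gp (gp ev_pow log_low norm_sum_abs)

noncomputable section

/-- an enumeration of a finite set -/
def enum (P : Finset ℕ) (j : ℕ) : ℕ := if h : j < P.card then (P.equivFin.symm ⟨j, h⟩ : ℕ) else 0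

lemma enum_mem (P : Finset ℕ) {j : ℕ} (h : j < P.card) : enum P j ∈ P := by
  unfold enum
  rw [dif_pos h]
  exact (P.equivFin.symm ⟨j, h⟩).2

lemma sum_enum {M : Type*} [AddCommMonoid M] (P : Finset ℕ) (g : ℕ → M) :
    ∑ j ∈ Finset.range P.card, g (enum P j) = ∑ p ∈ P, g p := by
  rw [Finset.sum_range, ← Finset.sum_coe_sort P g, ← Equiv.sum_comp P.equivFin.symm]
  refine Finset.sum_congr rfl fun i _ => ?_
  unfold enum
  rw [dif_pos i.2]

/-- the heights `f p + β`, `p` in the set `pset u v d r` of the primes `u < p ≤ v`, `p ≡ r` modulo `d`: there are at least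
`u ^ (1 - κ)` such primes, `v ≤ 2 u`, `T ≤ u ^ D`, and all these heights are in `[T, 2T]` -/
structure Win (f : ℝ → ℝ) (κ D β T : ℝ) (u v d r : ℕ) : Prop where
  mod : 0 < d
  dbl : v ≤ 2 * u
  many : (u : ℝ) ^ (1 - κ) ≤ (pset u v d r).card
  pol : T ≤ (u : ℝ) ^ D
  mem : ∀ p ∈ pset u v d r, f p + β ∈ Icc T (2 * T)

/-- **Heights over the primes.** -/
theorem prime_heights (F : Finset ℝ) (a : ℝ → ℝ) (c : ℝ) (hc : 0 < c) (hcn : ∀ m : ℕ, c ≠ m) (hcF : c ∈ F)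
    (hmax : ∀ x ∈ F, x ≤ c) (hac : 0 < a c) : ∃ η : ℝ, 0 < η ∧ ∀ D : ℝ, 0 < D →
    ∃ T₀ : ℝ, ∀ T : ℝ, T₀ ≤ T → ∀ (u v d r : ℕ) (β : ℝ), Win (gp F a) (η / 2) D β T u v d r →
      1 ≤ (pset u v d r).card ∧ Pool.Agent.R461.HM.Heights T (T ^ (2 * (η / (8 * D)))) (T ^ (-(η / (2 * D))))
        (Pool.Agent.R461.HM.unif (pset u v d r).card fun j => gp F a (enum (pset u v d r) j) + β) := by
  obtain ⟨η, hη, hη4, N₀, h⟩ := prime_sum F a c hc hcn hcF hmax hac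
  refine ⟨η, hη, fun D hD => ?_⟩
  have hev : ∀ᶠ T : ℝ in atTop, 1 ≤ T ∧ (max (N₀ : ℝ) 1) ≤ T ^ (1 / D) ∧
      2 * Real.pi * T ^ (2 * (η / (8 * D))) ≤ T ^ (η / D) := by
    filter_upwards [eventually_ge_atTop (1 : ℝ),
      (tendsto_rpow_atTop (show (0 : ℝ) < 1 / D by positivity)).eventually_ge_atTop (max (N₀ : ℝ) 1),
      ev_pow (2 * (η / (8 * D))) (η / D) (2 * Real.pi) (by
        have : 2 * (η / (8 * D)) = η / D * (1 / 4) := by field_simp; ring
        rw [this]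
        have : 0 < η / D := by positivity
        linarith)] with T h1 h2 h3
    exact ⟨h1, h2, h3⟩
  obtain ⟨T₀, hT₀⟩ := eventually_atTop.mp hev
  refine ⟨T₀, fun T hT u v d r β hw => ?_⟩
  obtain ⟨hT1, hTJ, hTp⟩ := hT₀ T hT
  have hT0 : 0 < T := by linarith
  have hJ0 : (0 : ℝ) ≤ u := Nat.cast_nonneg u
  have hTJ2 : T ^ (1 / D) ≤ u := by
    have h1 : T ^ (1 / D) ≤ ((u : ℝ) ^ D) ^ (1 / D) := Real.rpow_le_rpow hT0.le hw.pol (by positivity)
    rwa [← Real.rpow_mul hJ0, mul_one_div_cancel hD.ne', Real.rpow_one] at h1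
  have hJN : (N₀ : ℝ) ≤ u := (le_max_left _ _).trans (hTJ.trans hTJ2)
  have hJ1 : (1 : ℝ) ≤ u := (le_max_right _ _).trans (hTJ.trans hTJ2)
  have hJN' : N₀ ≤ u := by exact_mod_cast hJN
  have hJpos : (0 : ℝ) < u := by linarith
  obtain ⟨P, hP⟩ : ∃ P : Finset ℕ, P = pset u v d r := ⟨_, rfl⟩
  have hmany := hw.many
  have hmem := hw.mem
  rw [← hP] at hmany hmem ⊢
  have hL1 : 1 ≤ P.card := by
    have h1 : (1 : ℝ) ≤ P.card := (Real.one_le_rpow hJ1 (by linarith)).trans hmany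
    exact_mod_cast h1
  have huv : u ≤ v := by
    obtain ⟨p, hp⟩ := Finset.card_pos.1 hL1
    rw [hP, pset, Finset.mem_filter, Finset.mem_Ioc] at hp
    omega
  refine ⟨hL1, Pool.Agent.R461.HM.unif_heights hL1 (fun j hj => hmem _ (enum_mem P hj)) ?_⟩
  intro m n hm hn hmn hY
  obtain ⟨hl1, hl2⟩ := log_low hm hn hmn hY
  rw [norm_sum_abs P.card (fun j => gp F a (enum P j)) β (Real.log ((m : ℝ) / n))]
  obtain ⟨lam, hlam⟩ : ∃ lam : ℝ, lam = |Real.log ((m : ℝ) / n)| := ⟨_, rfl⟩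
  rw [← hlam] at hl1 hl2 ⊢
  have hpi := Real.pi_pos
  have hpi1 := Real.pi_gt_three
  have hTη : T ^ (η / D) ≤ (u : ℝ) ^ η := by
    have h1 : (T ^ (1 / D)) ^ η ≤ (u : ℝ) ^ η := Real.rpow_le_rpow (by positivity) hTJ2 hη.le
    rw [← Real.rpow_mul hT0.le] at h1
    have e1 : η / D = 1 / D * η := by ring
    rw [e1]
    exact h1
  have hTpos : 0 < T ^ (2 * (η / (8 * D))) := by positivity
  have hθ1 : (u : ℝ) ^ (-η) ≤ lam / (2 * Real.pi) := by
    rw [Real.rpow_neg hJ0, le_div_iff₀ (by positivity)]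
    refine le_trans ?_ hl1
    rw [one_div, inv_mul_le_iff₀ (by positivity)]
    have h1 : 2 * Real.pi * T ^ (2 * (η / (8 * D))) ≤ (u : ℝ) ^ η := hTp.trans hTη
    calc 2 * Real.pi = 2 * Real.pi * T ^ (2 * (η / (8 * D))) * (T ^ (2 * (η / (8 * D))))⁻¹ := by
          rw [mul_assoc, mul_inv_cancel₀ hTpos.ne', mul_one]
      _ ≤ (u : ℝ) ^ η * (T ^ (2 * (η / (8 * D))))⁻¹ := mul_le_mul_of_nonneg_right h1 (by positivity)
  have hθ2 : lam / (2 * Real.pi) ≤ (u : ℝ) ^ η := by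
    have h1 : lam / (2 * Real.pi) ≤ lam := by
      have h2 : 0 ≤ lam := by rw [hlam]; exact abs_nonneg _
      exact div_le_self h2 (by linarith)
    refine h1.trans (hl2.trans ?_)
    have h3 : T ^ (2 * (η / (8 * D))) ≤ 2 * Real.pi * T ^ (2 * (η / (8 * D))) := by nlinarith
    exact h3.trans (hTp.trans hTη)
  have h1 := h u hJN' (lam / (2 * Real.pi)) hθ1 hθ2 d r v hw.mod huv hw.dbl
  have h2 : ∑ j ∈ Finset.range P.card, e (lam / (2 * Real.pi) * gp F a (enum P j)) =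
      ∑ p ∈ pset u v d r, e (lam / (2 * Real.pi) * gp F a p) := by
    rw [sum_enum P (fun p : ℕ => e (lam / (2 * Real.pi) * gp F a p)), hP]
  rw [h2]
  refine h1.trans ?_
  have h4 : (u : ℝ) ^ (1 - η) = (u : ℝ) ^ (1 - η / 2) * (u : ℝ) ^ (-(η / 2)) := by
    rw [← Real.rpow_add hJpos]
    congr 1
    ring
  have h5 : (u : ℝ) ^ (-(η / 2)) ≤ T ^ (-(η / (2 * D))) := by
    rw [Real.rpow_neg hJ0, Real.rpow_neg hT0.le]
    refine inv_anti₀ (by positivity) ?_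
    have h6 : (T ^ (1 / D)) ^ (η / 2) ≤ (u : ℝ) ^ (η / 2) := Real.rpow_le_rpow (by positivity) hTJ2 (by positivity)
    rw [← Real.rpow_mul hT0.le] at h6
    have e1 : η / (2 * D) = 1 / D * (η / 2) := by field_simp
    rw [e1]
    exact h6
  have hw1 : 1 ≤ 1 + 1 / lam := by
    have h7 : 0 < 1 / T ^ (2 * (η / (8 * D))) := by positivity
    have h8 : 0 < lam := h7.trans_le hl1
    have : 0 < 1 / lam := by positivity
    linarith
  calc (u : ℝ) ^ (1 - η) ≤ (u : ℝ) ^ (1 - η / 2) * (u : ℝ) ^ (-(η / 2)) := by rw [← h4]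
    _ ≤ P.card * T ^ (-(η / (2 * D))) := mul_le_mul hmany h5 (by positivity) (Nat.cast_nonneg _)
    _ ≤ P.card * (T ^ (-(η / (2 * D))) * (1 + 1 / lam)) := by
        refine mul_le_mul_of_nonneg_left ?_ (Nat.cast_nonneg _)
        exact le_mul_of_one_le_right (by positivity) hw1

end

end Pool.Agent.N12.PH
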