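import Pool.Agent.N12.PH.Bd
import Pool.Agent.Y961.JR.ExpH

set_option autoImplicit false

/-! # The phases of the sums of type I and of type II -/

/-! Adapted by helper12 from `Pool/Agent/Y961/JR` (real coefficients `h j ≥ 1` in the place of positive integers). -/

namespace Pool.Agent.N12.PH

open Finset Filter
open Pool.Agent.H469R2.NK (e norm_e e_add norm_sum_neg)
open Pool.Agent.N12.MH.Gp (ev_pow pw pw_der lower_small)
open Pool.Agent.TH915.PW (Hy)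

variable {r : ℕ} {F : Fin r → Finset ℝ} {a : Fin r → ℝ → ℝ} {c : Fin r → ℝ}

/-- the phase of the (differenced) sums and its derivatives -/
noncomputable def ph {r : ℕ} (F : Fin r → Finset ℝ) (a : Fin r → ℝ → ℝ) (h : Fin r → ℝ)
    (ε q β l l' w : ℝ) (m : ℕ) (s : ℝ) : ℝ :=
  ε * ((l ^ m * gg F a h m (l * s) - w * (l' ^ m * gg F a h m (l' * s))) / q +
    (if m = 0 then β * s else if m = 1 then β else 0))

lemma ph_der (h : Fin r → ℝ) (ε q β l l' w : ℝ) (m : ℕ) (s : ℝ) (h1 : 0 < l * s)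
    (h2 : 0 < l' * s) :
    HasDerivAt (ph F a h ε q β l l' w m) (ph F a h ε q β l l' w (m + 1) s) s := by
  have d0 : ∀ l : ℝ, 0 < l * s → HasDerivAt (fun s => l ^ m * gg F a h m (l * s))
      (l ^ (m + 1) * gg F a h (m + 1) (l * s)) s := by
    intro l hl
    have h4 := gg_der F a h m (l * s) hl
    have h5 : HasDerivAt (fun s : ℝ => l * s) l s := by
      simpa using (hasDerivAt_id s).const_mul l
    have h6 := (h4.comp s h5).const_mul (l ^ m)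
    have e1 : l ^ (m + 1) * gg F a h (m + 1) (l * s) =
        l ^ m * (gg F a h (m + 1) (l * s) * l) := by ring
    rw [e1]
    exact h6
  have d1 : HasDerivAt (fun s : ℝ => if m = 0 then β * s else if m = 1 then β else 0)
      (if m + 1 = 0 then β * s else if m + 1 = 1 then β else 0) s := by
    rcases Nat.eq_zero_or_pos m with hm | hm
    · subst hm
      simpa using (hasDerivAt_id s).const_mul β
    · have e1 : (fun s : ℝ => if m = 0 then β * s else if m = 1 then β else 0) =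
          fun _ => (if m = 1 then β else 0) := by
        funext s
        rw [if_neg (by omega)]
      have e2 : (if m + 1 = 0 then β * s else if m + 1 = 1 then β else 0) = 0 := by
        rw [if_neg (Nat.succ_ne_zero m), if_neg (by omega)]
      rw [e1, e2]
      exact hasDerivAt_const _ _
  have := ((((d0 l h1).sub ((d0 l' h2).const_mul w)).div_const q).add d1).const_mul ε
  exact this

/-- the mean value theorem for the differenced derivatives -/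
lemma diff_mvt (h : Fin r → ℝ) (k : ℕ) (l l' s : ℝ) (hs : 0 < s) (hl' : 0 < l') (hll : l' < l) :
    ∃ ξ : ℝ, l' * s ≤ ξ ∧ ξ ≤ l * s ∧
      l ^ k * gg F a h k (l * s) - l' ^ k * gg F a h k (l' * s) =
        (l - l') * s * DD F a h k ξ / s ^ k := by
  have hlt : l' * s < l * s := mul_lt_mul_of_pos_right hll hs
  have hl's : 0 < l' * s := mul_pos hl' hs
  obtain ⟨ξ, hξ, hξ2⟩ := exists_hasDerivAt_eq_slope (fun t => t ^ k * gg F a h k t)
    (DD F a h k) hlt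
    (fun y hy => (DD_der h k y (by linarith [hy.1])).continuousAt.continuousWithinAt)
    (fun y hy => DD_der h k y (by linarith [hy.1]))
  refine ⟨ξ, hξ.1.le, hξ.2.le, ?_⟩
  have h3 : l * s - l' * s ≠ 0 := by linarith
  rw [hξ2]
  have h4 : l - l' ≠ 0 := by linarith
  rw [mul_pow, mul_pow]
  field_simp

/-- type I phases -/
lemma hy_I (H : Fam F a c) (j₀ : Fin r) (K : ℕ) (hK1 : 1 ≤ K) (c₁ c₂ ε : ℝ) (h : Fin r → ℝ)
    (N A B : ℝ) (q μ : ℕ) (hq : 1 ≤ q) (hμ : 1 ≤ μ) (β : ℝ) (hN : 0 < N)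
    (hb : ∀ t : ℝ, N ≤ t → t ≤ 3 * N →
      c₁ * (h j₀ * N ^ (c j₀ - (K + 1))) ≤ ε * gg F a h (K + 1) t ∧
      ε * gg F a h (K + 1) t ≤ c₂ * (h j₀ * N ^ (c j₀ - (K + 1))) ∧ ε * gg F a h (K + 2) t ≤ 0)
    (hA : N ≤ μ * A) (hB : μ * B ≤ 3 * N) :
    Hy K A B (c₁ * (h j₀ * N ^ (c j₀ - (K + 1)) * μ ^ (K + 1) / q))
      (c₂ * (h j₀ * N ^ (c j₀ - (K + 1)) * μ ^ (K + 1) / q)) (ph F a h ε q β μ μ 0) := by
  have hq0 : (0 : ℝ) < q := by exact_mod_cast hq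
  have hμ0 : (0 : ℝ) < μ := by exact_mod_cast hμ
  have hr : ∀ t ∈ Set.Icc A B, N ≤ μ * t ∧ μ * t ≤ 3 * N := by
    intro t ht
    have h1 : (μ : ℝ) * A ≤ μ * t := mul_le_mul_of_nonneg_left ht.1 hμ0.le
    have h2 : (μ : ℝ) * t ≤ μ * B := mul_le_mul_of_nonneg_left ht.2 hμ0.le
    constructor <;> linarith
  have hval : ∀ m, 2 ≤ m → ∀ t, ph F a h ε q β μ μ 0 m t =
      (μ : ℝ) ^ m / q * (ε * gg F a h m (μ * t)) := by
    intro m hm t
    unfold ph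
    rw [if_neg (by omega), if_neg (by omega)]
    ring
  refine ⟨?_, ?_, ?_, ?_⟩
  · intro m _ t ht
    have := (hr t ht).1
    exact ph_der h ε q β μ μ 0 m t (by linarith) (by linarith)
  · intro t ht
    rw [hval (K + 1) (by omega)]
    have h1 := (hb (μ * t) (hr t ht).1 (hr t ht).2).1
    calc c₁ * (h j₀ * N ^ (c j₀ - (K + 1)) * μ ^ (K + 1) / q) =
          (μ : ℝ) ^ (K + 1) / q * (c₁ * (h j₀ * N ^ (c j₀ - (K + 1)))) := by ring
      _ ≤ _ := mul_le_mul_of_nonneg_left h1 (by positivity)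
  · intro t ht
    rw [hval (K + 1) (by omega)]
    have h1 := (hb (μ * t) (hr t ht).1 (hr t ht).2).2.1
    calc (μ : ℝ) ^ (K + 1) / q * (ε * gg F a h (K + 1) (μ * t)) ≤
          (μ : ℝ) ^ (K + 1) / q * (c₂ * (h j₀ * N ^ (c j₀ - (K + 1)))) :=
          mul_le_mul_of_nonneg_left h1 (by positivity)
      _ = _ := by ring
  · intro t ht
    rw [hval (K + 2) (by omega)]
    have h1 := (hb (μ * t) (hr t ht).1 (hr t ht).2).2.2
    exact mul_nonpos_of_nonneg_of_nonpos (by positivity) h1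

/-- type II phases -/
lemma hy_II (H : Fam F a c) (j₀ : Fin r) (K : ℕ) (hK1 : 1 ≤ K) (c₁ c₂ ε : ℝ) (h : Fin r → ℝ)
    (N A B M : ℝ) (q l l' : ℕ) (hq : 1 ≤ q) (hl' : 1 ≤ l') (hll : l' < l) (β : ℝ) (hN : 0 < N)
    (hc₁ : 0 < c₁) (hc₂ : 0 < c₂) (hpos : 1 ≤ h j₀)
    (hb : ∀ t : ℝ, N ≤ t → t ≤ 3 * N →
      c₁ * (h j₀ * N ^ (c j₀ - 1)) ≤ ε * DD F a h (K + 1) t ∧
      ε * DD F a h (K + 1) t ≤ c₂ * (h j₀ * N ^ (c j₀ - 1)) ∧ ε * DD F a h (K + 2) t ≤ 0)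
    (hM : 0 < M) (hAM : M ≤ A) (hBM : B ≤ 3 * M)
    (hA : N ≤ l' * A) (hB : l * B ≤ 3 * N) :
    Hy K A B (c₁ * 3⁻¹ ^ K * (h j₀ * N ^ (c j₀ - 1) * ((l : ℝ) - l') / q / M ^ K))
      (c₂ * (h j₀ * N ^ (c j₀ - 1) * ((l : ℝ) - l') / q / M ^ K)) (ph F a h ε q β l l' 1) := by
  have hq0 : (0 : ℝ) < q := by exact_mod_cast hq
  have hl'0 : (0 : ℝ) < l' := by exact_mod_cast hl'
  have hll' : (l' : ℝ) < l := by exact_mod_cast hll
  have hl0 : (0 : ℝ) < l := by linarith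
  have hd : (0 : ℝ) < (l : ℝ) - l' := by linarith
  have hh : (0 : ℝ) < h j₀ := by linarith [hpos]
  have hNp := Real.rpow_pos_of_pos hN (c j₀ - 1)
  have hr : ∀ t ∈ Set.Icc A B, N ≤ l' * t ∧ l * t ≤ 3 * N ∧ M ≤ t ∧ t ≤ 3 * M := by
    intro t ht
    have h1 : (l' : ℝ) * A ≤ l' * t := mul_le_mul_of_nonneg_left ht.1 hl'0.le
    have h2 : (l : ℝ) * t ≤ l * B := mul_le_mul_of_nonneg_left ht.2 hl0.le
    refine ⟨by linarith, by linarith, by linarith [ht.1], by linarith [ht.2]⟩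
  have hval : ∀ m, 2 ≤ m → ∀ t ∈ Set.Icc A B, ∃ ξ, N ≤ ξ ∧ ξ ≤ 3 * N ∧
      ph F a h ε q β l l' 1 m t = ((l : ℝ) - l') * t / t ^ m / q * (ε * DD F a h m ξ) := by
    intro m hm t ht
    obtain ⟨h1, h2, h3, h4⟩ := hr t ht
    obtain ⟨ξ, hξ1, hξ2, hξ3⟩ := diff_mvt (F := F) (a := a) h m (l : ℝ) (l' : ℝ) t (by linarith)
      hl'0 hll'
    refine ⟨ξ, by linarith, by linarith, ?_⟩
    unfold ph
    rw [if_neg (by omega), if_neg (by omega), one_mul, hξ3]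
    ring
  refine ⟨?_, ?_, ?_, ?_⟩
  · intro m _ t ht
    obtain ⟨h1, h2, h3, h4⟩ := hr t ht
    exact ph_der h ε q β l l' 1 m t (mul_pos hl0 (by linarith)) (by linarith)
  · intro t ht
    obtain ⟨h1, h2, h3, h4⟩ := hr t ht
    have ht0 : 0 < t := by linarith
    obtain ⟨ξ, hξ1, hξ2, hξ3⟩ := hval (K + 1) (by omega) t ht
    rw [hξ3]
    have h5 := (hb ξ hξ1 hξ2).1
    have h6 : ((l : ℝ) - l') * t / t ^ (K + 1) / q = ((l : ℝ) - l') / q * (t ^ K)⁻¹ := by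
      rw [pow_succ]
      field_simp
    rw [h6]
    have h7 : (3⁻¹ : ℝ) ^ K * (M ^ K)⁻¹ ≤ (t ^ K)⁻¹ := by
      rw [inv_pow, ← mul_inv, ← mul_pow]
      exact inv_anti₀ (by positivity) (pow_le_pow_left₀ ht0.le h4 K)
    calc c₁ * 3⁻¹ ^ K * (h j₀ * N ^ (c j₀ - 1) * ((l : ℝ) - l') / q / M ^ K) =
          ((l : ℝ) - l') / q * (3⁻¹ ^ K * (M ^ K)⁻¹) * (c₁ * (h j₀ * N ^ (c j₀ - 1))) := by
          field_simp
      _ ≤ ((l : ℝ) - l') / q * (t ^ K)⁻¹ * (ε * DD F a h (K + 1) ξ) := by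
          have h8 : 0 ≤ c₁ * (h j₀ * N ^ (c j₀ - 1)) := by positivity
          gcongr
  · intro t ht
    obtain ⟨h1, h2, h3, h4⟩ := hr t ht
    have ht0 : 0 < t := by linarith
    obtain ⟨ξ, hξ1, hξ2, hξ3⟩ := hval (K + 1) (by omega) t ht
    rw [hξ3]
    have h5 := (hb ξ hξ1 hξ2).2.1
    have h6 : ((l : ℝ) - l') * t / t ^ (K + 1) / q = ((l : ℝ) - l') / q * (t ^ K)⁻¹ := by
      rw [pow_succ]
      field_simp
    rw [h6]
    have h7 : (t ^ K)⁻¹ ≤ (M ^ K)⁻¹ := inv_anti₀ (by positivity) (pow_le_pow_left₀ hM.le h3 K)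
    have h8 : 0 ≤ c₂ * (h j₀ * N ^ (c j₀ - 1)) := by positivity
    calc ((l : ℝ) - l') / q * (t ^ K)⁻¹ * (ε * DD F a h (K + 1) ξ) ≤
          ((l : ℝ) - l') / q * (t ^ K)⁻¹ * (c₂ * (h j₀ * N ^ (c j₀ - 1))) := by gcongr
      _ ≤ ((l : ℝ) - l') / q * (M ^ K)⁻¹ * (c₂ * (h j₀ * N ^ (c j₀ - 1))) := by gcongr
      _ = _ := by field_simp
  · intro t ht
    obtain ⟨h1, h2, h3, h4⟩ := hr t ht
    have ht0 : 0 < t := by linarith
    obtain ⟨ξ, hξ1, hξ2, hξ3⟩ := hval (K + 2) (by omega) t ht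
    rw [hξ3]
    exact mul_nonpos_of_nonneg_of_nonpos (by positivity) (hb ξ hξ1 hξ2).2.2

end Pool.Agent.N12.PH
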