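import Pool.Agent.N12.PH.Su
import Pool.Agent.H373R2.T7.Vau

set_option autoImplicit false

/-! # Exponential sums over primes with integer combinations of generalised polynomials -/

/-! Adapted by helper12 from `Pool/Agent/Y961/JR` (real coefficients `h j ≥ 1` in the place of positive integers). -/

namespace Pool.Agent.N12.PH

open Finset Filter
open Pool.Agent.H469R2.NK (e norm_e e_add conj_e norm_sum_neg)
open Pool.Agent.N12.MH.Gp (ev_pow pw pw_der lower_small)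
open Pool.Agent.TH915.PW (Hy)
open Pool.Agent.H373R2.T3 (bilin harm)
open Pool.Agent.H373R2.T7 (vaughan_gen)

variable {r : ℕ} {F : Fin r → Finset ℝ} {a : Fin r → ℝ → ℝ} {c : Fin r → ℝ}

/-- number of integers close to a given one -/
lemma close_count (S : Finset ℕ) (l : ℕ) (D : ℝ) (hD : 0 ≤ D) :
    (((S.filter fun l' : ℕ => |(l : ℝ) - l'| < D).card : ℕ) : ℝ) ≤ 2 * D + 1 := by
  have h1 : (S.filter fun l' : ℕ => |(l : ℝ) - l'| < D) ⊆ Icc (l - ⌊D⌋₊) (l + ⌊D⌋₊) := by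
    intro l' hl'
    rw [mem_filter] at hl'
    have h2 := abs_lt.mp hl'.2
    rw [mem_Icc]
    constructor
    · by_contra hcon
      push Not at hcon
      have h3 : l' + ⌊D⌋₊ + 1 ≤ l := by omega
      have h4 : (l' : ℝ) + ⌊D⌋₊ + 1 ≤ l := by exact_mod_cast h3
      have h5 := Nat.lt_floor_add_one D
      linarith
    · by_contra hcon
      push Not at hcon
      have h3 : l + ⌊D⌋₊ + 1 ≤ l' := by omega
      have h4 : (l : ℝ) + ⌊D⌋₊ + 1 ≤ l' := by exact_mod_cast h3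
      have h5 := Nat.lt_floor_add_one D
      linarith
  have h2 := card_le_card h1
  rw [Nat.card_Icc] at h2
  have h3 : (S.filter fun l' : ℕ => |(l : ℝ) - l'| < D).card ≤ 2 * ⌊D⌋₊ + 1 := by omega
  have h4 : (((S.filter fun l' : ℕ => |(l : ℝ) - l'| < D).card : ℕ) : ℝ) ≤ 2 * ⌊D⌋₊ + 1 := by
    exact_mod_cast h3
  have h5 := Nat.floor_le hD
  linarith

/-- the sequence -/
noncomputable def EE {r : ℕ} (F : Fin r → Finset ℝ) (a : Fin r → ℝ → ℝ) (h : Fin r → ℝ) (q : ℕ)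
    (β : ℝ) (n : ℕ) : ℂ := e (gg F a h 0 n / q + β * n)

/-- the bilinear sums -/
lemma type_II (h : Fin r → ℝ) (q : ℕ) (β : ℝ) (N N' M L : ℕ) (P D : ℝ) (hD : 0 ≤ D) (hP : 0 ≤ P)
    (hM : 1 ≤ M) (hL : 1 ≤ L)
    (hpair : ∀ β : ℝ, ∀ l l' A B : ℕ, L < l' → l' < l → l ≤ 2 * L → M ≤ A → B ≤ 2 * M →
      N < (A + 1) * l' → B * l ≤ N' → D ≤ (l : ℝ) - l' →
      ‖∑ m ∈ Ioc A B, e ((gg F a h 0 (l * m) - gg F a h 0 (l' * m)) / q + β * m)‖ ≤ P)
    (x y : ℕ → ℂ) :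
    ‖∑ m ∈ Ioc M (2 * M), ∑ l ∈ Ioc L (2 * L), x m * y l *
      (if N < m * l ∧ m * l ≤ N' then EE F a h q β (m * l) else 0)‖ ^ 2 ≤
      (∑ m ∈ Ioc M (2 * M), ‖x m‖ ^ 2) * ((∑ l ∈ Ioc L (2 * L), ‖y l‖ ^ 2) *
        ((2 * D + 1) * M + L * P)) := by
  classical
  set g : ℕ → ℕ → ℂ := fun m l => if N < m * l ∧ m * l ≤ N' then EE F a h q β (m * l) else 0 with hg
  set T : ℝ := (2 * D + 1) * M + L * P with hT
  have hgg : ∀ m l l', g m l * (starRingEnd ℂ) (g m l') =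
      if (N < m * l ∧ m * l ≤ N') ∧ (N < m * l' ∧ m * l' ≤ N') then
      e ((gg F a h 0 (l * m) - gg F a h 0 (l' * m)) / q + β * ((l : ℝ) - l') * m) else 0 := by
    intro m l l'
    simp only [hg]
    by_cases h2 : N < m * l ∧ m * l ≤ N'
    · by_cases h3 : N < m * l' ∧ m * l' ≤ N'
      · rw [if_pos h2, if_pos h3, if_pos ⟨h2, h3⟩]
        unfold EE
        rw [conj_e, ← e_add]
        congr 1
        push_cast
        rw [mul_comm (m : ℝ) (l : ℝ), mul_comm (m : ℝ) (l' : ℝ)]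
        ring
      · rw [if_neg h3, map_zero, mul_zero, if_neg (fun h => h3 h.2)]
    · rw [if_neg h2, zero_mul, if_neg (fun h => h2 h.1)]
  -- the inner sums as sums over intervals
  have hset : ∀ l l', 0 < l → 0 < l' → ∑ m ∈ Ioc M (2 * M), g m l * (starRingEnd ℂ) (g m l') =
      ∑ m ∈ Ioc (max M (max (N / l) (N / l'))) (min (2 * M) (min (N' / l) (N' / l'))),
        e ((gg F a h 0 (l * m) - gg F a h 0 (l' * m)) / q + β * ((l : ℝ) - l') * m) := by
    intro l l' hl0 hl0'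
    have e1 : ∑ m ∈ Ioc M (2 * M), g m l * (starRingEnd ℂ) (g m l') =
        ∑ m ∈ Ioc M (2 * M), if (N < m * l ∧ m * l ≤ N') ∧ (N < m * l' ∧ m * l' ≤ N') then
          e ((gg F a h 0 (l * m) - gg F a h 0 (l' * m)) / q + β * ((l : ℝ) - l') * m) else 0 :=
      sum_congr rfl fun m _ => hgg m l l'
    rw [e1, ← sum_filter]
    apply sum_congr _ fun _ _ => rfl
    ext m
    simp only [mem_filter, mem_Ioc, max_lt_iff, le_min_iff]
    rw [Nat.div_lt_iff_lt_mul hl0, Nat.div_lt_iff_lt_mul hl0', Nat.le_div_iff_mul_le hl0,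
      Nat.le_div_iff_mul_le hl0']
    tauto
  have hfar1 : ∀ l l', L < l' → l' < l → l ≤ 2 * L → D ≤ (l : ℝ) - l' →
      ‖∑ m ∈ Ioc M (2 * M), g m l * (starRingEnd ℂ) (g m l')‖ ≤ P := by
    intro l l' h1 h2 h3 h4
    rw [hset l l' (by omega) (by omega)]
    apply hpair _ l l' _ _ h1 h2 h3 (le_max_left _ _) (min_le_left _ _) _ _ h4
    · have h5 : N / l' ≤ max M (max (N / l) (N / l')) :=
        (le_max_right (N / l) (N / l')).trans (le_max_right _ _)
      have h6 : N < (N / l' + 1) * l' := by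
        rw [mul_comm]
        exact Nat.lt_mul_div_succ N (by omega)
      exact lt_of_lt_of_le h6 (Nat.mul_le_mul_right _ (by omega))
    · have h5 : min (2 * M) (min (N' / l) (N' / l')) ≤ N' / l :=
        (min_le_right _ _).trans (min_le_left _ _)
      exact (Nat.mul_le_mul_right _ h5).trans (Nat.div_mul_le_self _ _)
  have hfar : ∀ l ∈ Ioc L (2 * L), ∀ l' ∈ Ioc L (2 * L), ¬ |(l : ℝ) - l'| < D → l ≠ l' →
      ‖∑ m ∈ Ioc M (2 * M), g m l * (starRingEnd ℂ) (g m l')‖ ≤ P := by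
    intro l hl l' hl' hfar hne
    rw [mem_Ioc] at hl hl'
    rw [not_lt] at hfar
    rcases lt_or_gt_of_ne hne with hlt | hlt
    · have h1 : (l : ℝ) < l' := by exact_mod_cast hlt
      rw [abs_of_neg (by linarith)] at hfar
      have h2 := hfar1 l' l hl.1 hlt hl'.2 (by linarith)
      have h3 : ∑ m ∈ Ioc M (2 * M), g m l' * (starRingEnd ℂ) (g m l) =
          (starRingEnd ℂ) (∑ m ∈ Ioc M (2 * M), g m l * (starRingEnd ℂ) (g m l')) := by
        rw [map_sum]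
        apply sum_congr rfl
        intro m _
        rw [map_mul, Complex.conj_conj]
        ring
      rw [h3, Complex.norm_conj] at h2
      exact h2
    · have h1 : (l' : ℝ) < l := by exact_mod_cast hlt
      rw [abs_of_pos (by linarith)] at hfar
      exact hfar1 l l' hl'.1 hlt hl.2 hfar
  have htriv : ∀ l l', ‖∑ m ∈ Ioc M (2 * M), g m l * (starRingEnd ℂ) (g m l')‖ ≤ M := by
    intro l l'
    refine (norm_sum_le _ _).trans ?_
    calc ∑ m ∈ Ioc M (2 * M), ‖g m l * (starRingEnd ℂ) (g m l')‖ ≤ ∑ _m ∈ Ioc M (2 * M), (1 : ℝ) := by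
          apply sum_le_sum; intro m hm
          rw [hgg m l l']
          split_ifs
          · rw [norm_e]
          · rw [norm_zero]; norm_num
      _ = M := by
          rw [sum_const, Nat.card_Ioc, nsmul_eq_mul, mul_one]
          congr 1; omega
  have hTj : ∀ l ∈ Ioc L (2 * L), ∑ l' ∈ Ioc L (2 * L),
      ‖∑ m ∈ Ioc M (2 * M), g m l * (starRingEnd ℂ) (g m l')‖ ≤ T := by
    intro l hl
    rcases eq_or_lt_of_le hD with hD0 | hDpos
    · -- D = 0: the diagonal is separate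
      rw [← add_sum_erase _ _ hl]
      have h1 : ∑ l' ∈ (Ioc L (2 * L)).erase l,
          ‖∑ m ∈ Ioc M (2 * M), g m l * (starRingEnd ℂ) (g m l')‖ ≤
          ∑ l' ∈ (Ioc L (2 * L)).erase l, P := by
        apply sum_le_sum
        intro l' hl'
        rw [mem_erase] at hl'
        apply hfar l hl l' hl'.2 _ (Ne.symm hl'.1)
        rw [← hD0]
        exact not_lt.mpr (abs_nonneg _)
      have h2 : ∑ l' ∈ (Ioc L (2 * L)).erase l, P ≤ L * P := by
        rw [sum_const, nsmul_eq_mul]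
        apply mul_le_mul_of_nonneg_right _ hP
        have h3 : ((Ioc L (2 * L)).erase l).card ≤ (Ioc L (2 * L)).card :=
          card_le_card (erase_subset _ _)
        rw [Nat.card_Ioc] at h3
        exact_mod_cast (by omega : ((Ioc L (2 * L)).erase l).card ≤ L)
      rw [hT, ← hD0]
      have := htriv l l
      linarith
    · rw [← sum_filter_add_sum_filter_not (Ioc L (2 * L)) (fun l' : ℕ => |(l : ℝ) - l'| < D)]
      rw [hT]
      apply add_le_add
      · calc ∑ l' ∈ (Ioc L (2 * L)).filter (fun l' : ℕ => |(l : ℝ) - l'| < D),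
              ‖∑ m ∈ Ioc M (2 * M), g m l * (starRingEnd ℂ) (g m l')‖ ≤
              ∑ l' ∈ (Ioc L (2 * L)).filter (fun l' : ℕ => |(l : ℝ) - l'| < D), (M : ℝ) :=
              sum_le_sum fun l' _ => htriv l l'
          _ = (((Ioc L (2 * L)).filter (fun l' : ℕ => |(l : ℝ) - l'| < D)).card : ℝ) * M := by
              rw [sum_const, nsmul_eq_mul]
          _ ≤ (2 * D + 1) * M :=
              mul_le_mul_of_nonneg_right (close_count _ l D hD) (Nat.cast_nonneg _)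
      · calc ∑ l' ∈ (Ioc L (2 * L)).filter (fun l' : ℕ => ¬ |(l : ℝ) - l'| < D),
              ‖∑ m ∈ Ioc M (2 * M), g m l * (starRingEnd ℂ) (g m l')‖ ≤
              ∑ l' ∈ (Ioc L (2 * L)).filter (fun l' : ℕ => ¬ |(l : ℝ) - l'| < D), P := by
              apply sum_le_sum
              intro l' hl'
              rw [mem_filter] at hl'
              apply hfar l hl l' hl'.1 hl'.2
              intro heq
              apply hl'.2
              rw [heq, sub_self, abs_zero]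
              exact hDpos
          _ = (((Ioc L (2 * L)).filter (fun l' : ℕ => ¬ |(l : ℝ) - l'| < D)).card : ℝ) * P := by
              rw [sum_const, nsmul_eq_mul]
          _ ≤ L * P := by
              apply mul_le_mul_of_nonneg_right _ hP
              have h3 := card_filter_le (Ioc L (2 * L)) (fun l' : ℕ => ¬ |(l : ℝ) - l'| < D)
              rw [Nat.card_Ioc] at h3
              exact_mod_cast (by omega :
                ((Ioc L (2 * L)).filter (fun l' : ℕ => ¬ |(l : ℝ) - l'| < D)).card ≤ L)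
  exact bilin _ _ x y g T hTj

/-- sums over primes, one leading exponent, positive frequency -/
theorem vm_pos (H : Fam F a c) (j₀ : Fin r) :
    ∃ η τ : ℝ, 0 < η ∧ η ≤ 1 / 4 ∧ 0 < τ ∧ τ ≤ η / 4 ∧ ∃ x₀ : ℝ, ∀ N : ℕ, x₀ ≤ N →
    ∀ h : Fin r → ℝ, 1 ≤ h j₀ → (∀ j, c j₀ < c j → h j = 0) → (∀ j, |(h j : ℝ)| ≤ (N : ℝ) ^ η) →
    ∀ q : ℕ, 1 ≤ q → (q : ℝ) ≤ (N : ℝ) ^ η → ∀ β : ℝ, ∀ N' : ℕ, N ≤ N' → N' ≤ 2 * N →
    ‖∑ n ∈ Ioc N N', ((ArithmeticFunction.vonMangoldt n : ℝ) : ℂ) * EE F a h q β n‖ ≤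
      (N : ℝ) ^ (1 - τ) := by
  have hc := H.cpos j₀
  obtain ⟨K, hK⟩ := exists_nat_ge (4 * (c j₀ + 1))
  have hK1 : 1 ≤ K := by
    have : (0 : ℝ) < K := by linarith
    have : 0 < K := by exact_mod_cast this
    omega
  have hK0 : (0 : ℝ) < K := by exact_mod_cast hK1
  have hK1r : (1 : ℝ) ≤ K := by exact_mod_cast hK1
  set σ : ℝ := min 1 (c j₀ / 4) with hσ
  have hσ0 : 0 < σ := lt_min one_pos (by positivity)
  have hσ1 : σ ≤ 1 := min_le_left _ _
  have hσc : σ ≤ c j₀ / 4 := min_le_right _ _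
  obtain ⟨η₁, hη₁, hI⟩ := sum_I H j₀ K hK1 hK σ hσ0 hσ1 hσc
  obtain ⟨η₂, hη₂, hII⟩ := sum_II H j₀ K hK1 hK σ hσ0 hσ1 hσc
  set τ₀ : ℝ := σ / (4 * K * 2 ^ K) with hτ₀
  have hτ₀0 : 0 < τ₀ := by positivity
  have hτ₀1 : τ₀ ≤ 1 := by
    rw [hτ₀, div_le_one (by positivity)]
    have h2 : (1 : ℝ) ≤ 2 ^ K := one_le_pow₀ (by norm_num)
    nlinarith
  have hτI : σ / (8 * K * 2 ^ K) = τ₀ / 2 := by rw [hτ₀]; field_simp; norm_num
  set η : ℝ := min η₁ (min η₂ (τ₀ / 4)) with hη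
  have hη0 : 0 < η := lt_min hη₁ (lt_min hη₂ (by positivity))
  have hηa : η ≤ η₁ := min_le_left _ _
  have hηb : η ≤ η₂ := (min_le_right _ _).trans (min_le_left _ _)
  have hηc : η ≤ τ₀ / 4 := (min_le_right _ _).trans (min_le_right _ _)
  obtain ⟨x₁, hx₁⟩ := hI η hη0 hηa
  obtain ⟨x₂, hx₂⟩ := hII η hη0 hηb
  have hlog : ∀ᶠ x : ℝ in atTop, 46 * (1 + Real.log (4 * x)) ^ 5 ≤ x ^ (η / 4) := by
    have e1 := (isLittleO_log_rpow_atTop (show (0 : ℝ) < η / 44 by positivity)).def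
      (show (0 : ℝ) < 1 by norm_num)
    filter_upwards [e1, eventually_ge_atTop (1 : ℝ),
      (tendsto_rpow_atTop (show (0 : ℝ) < η / 44 by positivity)).eventually_ge_atTop 46]
      with x h1 h2 h46
    have h4 : 0 ≤ Real.log x := Real.log_nonneg h2
    rw [Real.norm_eq_abs, Real.norm_eq_abs, abs_of_nonneg h4, abs_of_nonneg (by positivity),
      one_mul] at h1
    have hx0 : (0 : ℝ) < x := by linarith
    have h5 : Real.log (4 * x) = Real.log 4 + Real.log x := Real.log_mul (by norm_num) (by linarith)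
    have h6 : Real.log 4 ≤ 2 := by
      have h7 : Real.log 4 = 2 * Real.log 2 := by
        rw [show (4 : ℝ) = 2 ^ 2 by norm_num, Real.log_pow]; push_cast; ring
      have := Real.log_two_lt_d9
      linarith
    set y : ℝ := x ^ (η / 44) with hy
    have h8 : 1 + Real.log (4 * x) ≤ y ^ 2 := by
      rw [h5]
      nlinarith
    have h9 : 0 ≤ 1 + Real.log (4 * x) := by
      have := Real.log_nonneg (show (1 : ℝ) ≤ 4 * x by linarith)
      linarith
    have h10 : x ^ (η / 4) = y ^ 11 := by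
      rw [hy, ← Real.rpow_natCast, ← Real.rpow_mul hx0.le]
      congr 1
      push_cast
      ring
    have hy0 : 0 ≤ y := by linarith
    rw [h10]
    calc 46 * (1 + Real.log (4 * x)) ^ 5 ≤ y * (y ^ 2) ^ 5 := by gcongr
      _ = y ^ 11 := by ring
  obtain ⟨x₃, hx₃⟩ := eventually_atTop.mp hlog
  refine ⟨η, η / 4, hη0, by linarith, by positivity, le_rfl,
    max (10 ^ 4) (max x₁ (max x₂ x₃)), ?_⟩
  intro N hN h hpos hz hh q hq hqN β N' hNN' hN'
  have hN4 : (10 ^ 4 : ℝ) ≤ N := (le_max_left _ _).trans hN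
  have hNx₁ : x₁ ≤ N := (le_max_left _ _).trans ((le_max_right _ _).trans hN)
  have hNx₂ : x₂ ≤ N := (le_max_left _ _).trans ((le_max_right _ _).trans ((le_max_right _ _).trans hN))
  have hNx₃ : x₃ ≤ N := (le_max_right _ _).trans ((le_max_right _ _).trans ((le_max_right _ _).trans hN))
  have hN4n : 10 ^ 4 ≤ N := by exact_mod_cast hN4
  have hN0 : (0 : ℝ) < N := by linarith
  have hN1 : (1 : ℝ) ≤ N := by linarith
  have hlogN := hx₃ N hNx₃
  set Lg : ℝ := 1 + Real.log (4 * N) with hLg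
  have hlog4N : 0 ≤ Real.log (4 * (N : ℝ)) := Real.log_nonneg (by linarith)
  have hLg1 : 1 ≤ Lg := by linarith
  set U : ℕ := Nat.sqrt (Nat.sqrt N) with hU
  have hU1 : U * U ≤ Nat.sqrt N := Nat.sqrt_le (Nat.sqrt N)
  have hU2 : Nat.sqrt N * Nat.sqrt N ≤ N := Nat.sqrt_le N
  have hU3 : N < (U + 1) ^ 4 := by
    have h4 : Nat.sqrt N < (U + 1) * (U + 1) := by rw [hU]; exact Nat.lt_succ_sqrt _
    have h5 : N < (Nat.sqrt N + 1) * (Nat.sqrt N + 1) := Nat.lt_succ_sqrt _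
    have h6 : Nat.sqrt N + 1 ≤ (U + 1) * (U + 1) := h4
    calc N < (Nat.sqrt N + 1) * (Nat.sqrt N + 1) := h5
      _ ≤ ((U + 1) * (U + 1)) * ((U + 1) * (U + 1)) := Nat.mul_le_mul h6 h6
      _ = (U + 1) ^ 4 := by ring
  have hU9 : 1 ≤ U := by
    by_contra hcon
    have h1 : U + 1 ≤ 1 := by omega
    have h2 : (U + 1) ^ 4 ≤ 1 ^ 4 := Nat.pow_le_pow_left h1 4
    omega
  have hUsq : U * U ≤ N := hU1.trans (Nat.sqrt_le_self N)
  set Y : ℕ → ℝ := fun m => 2 * (N / m) * (N : ℝ) ^ (-(τ₀ / 2)) with hY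
  set R : ℝ := 5 * (N : ℝ) ^ (1 - η / 2) with hR
  have hR2 : R ^ 2 = 25 * ((N : ℝ) ^ 2 * (N : ℝ) ^ (-η)) := by
    have h1 : ((N : ℝ) ^ (1 - η / 2)) ^ 2 = (N : ℝ) ^ 2 * (N : ℝ) ^ (-η) := by
      rw [← Real.rpow_natCast, ← Real.rpow_mul hN0.le, ← Real.rpow_natCast (N : ℝ) 2,
        ← Real.rpow_add hN0]
      congr 1
      push_cast
      ring
    rw [hR, mul_pow, h1]
    norm_num
  have hmain := vaughan_gen (EE F a h q β) N N' U (by omega) hNN' hN' hU9 hUsq Y R (by positivity)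
    (fun m => by simp only [hY]; positivity) ?_ ?_
  · refine hmain.trans ?_
    have h1 : ∑ m ∈ Icc 1 (U * U), Y m ≤ 2 * (N : ℝ) * (N : ℝ) ^ (-(τ₀ / 2)) * Lg := by
      have h2 : ∑ m ∈ Icc 1 (U * U), Y m =
          2 * (N : ℝ) * (N : ℝ) ^ (-(τ₀ / 2)) * ∑ m ∈ Icc 1 (U * U), 1 / (m : ℝ) := by
        rw [mul_sum]
        apply sum_congr rfl
        intro m _
        simp only [hY]
        ring
      rw [h2]
      apply mul_le_mul_of_nonneg_left _ (by positivity)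
      refine (harm (U * U)).trans ?_
      have : Real.log (((U * U : ℕ) : ℝ) + 1) ≤ Real.log (4 * N) := by
        apply Real.log_le_log (by positivity)
        have h1 : ((U * U : ℕ) : ℝ) ≤ N := by exact_mod_cast hUsq
        linarith
      linarith
    have h3 : (N : ℝ) * (N : ℝ) ^ (-(τ₀ / 2)) ≤ (N : ℝ) ^ (1 - η / 2) := by
      calc (N : ℝ) * (N : ℝ) ^ (-(τ₀ / 2)) = (N : ℝ) ^ (1 : ℝ) * (N : ℝ) ^ (-(τ₀ / 2)) := by
            rw [Real.rpow_one]
        _ = (N : ℝ) ^ (1 + -(τ₀ / 2)) := by rw [← Real.rpow_add hN0]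
        _ ≤ _ := Real.rpow_le_rpow_of_exponent_le hN1 (by linarith)
    have hp := Real.rpow_pos_of_pos hN0 (1 - η / 2)
    have hLg5 : Lg * Lg ≤ Lg ^ 5 := by
      calc Lg * Lg = Lg ^ 2 := by ring
        _ ≤ Lg ^ 5 := pow_le_pow_right₀ hLg1 (by norm_num)
    calc 8 * Lg ^ 5 * R + 3 * Lg * ∑ m ∈ Icc 1 (U * U), Y m ≤
          8 * Lg ^ 5 * R + 3 * Lg * (2 * (N : ℝ) * (N : ℝ) ^ (-(τ₀ / 2)) * Lg) := by gcongr
      _ = 40 * Lg ^ 5 * (N : ℝ) ^ (1 - η / 2) +
          6 * (Lg * Lg) * ((N : ℝ) * (N : ℝ) ^ (-(τ₀ / 2))) := by rw [hR]; ring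
      _ ≤ 40 * Lg ^ 5 * (N : ℝ) ^ (1 - η / 2) + 6 * Lg ^ 5 * (N : ℝ) ^ (1 - η / 2) := by gcongr
      _ = 46 * Lg ^ 5 * (N : ℝ) ^ (1 - η / 2) := by ring
      _ ≤ (N : ℝ) ^ (η / 4) * (N : ℝ) ^ (1 - η / 2) := by gcongr
      _ = (N : ℝ) ^ (1 - η / 4) := by
          rw [← Real.rpow_add hN0]
          congr 1
          ring
  · -- type I
    intro m hm b hb
    rw [mem_Icc] at hm
    have h1 := hx₁ N hNx₁ h hpos hz hh q hq hqN (β * m) m hm.1
      ((Nat.mul_le_mul (hm.2.trans hU1) (hm.2.trans hU1)).trans hU2) b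
      (hb.trans (Nat.div_le_div_right hN'))
    rw [hτI] at h1
    have h2 : ∑ l ∈ Ioc (N / m) b, EE F a h q β (m * l) =
        ∑ l ∈ Ioc (N / m) b, e (gg F a h 0 (m * l) / q + β * m * l) := by
      apply sum_congr rfl
      intro l _
      unfold EE
      congr 1
      push_cast
      ring
    rw [h2]
    exact h1
  · -- type II
    intro x y A₂ B₂ hA hB M L hM hL hUM hUL hML hsa hsb
    have hMr : (1 : ℝ) ≤ M := by exact_mod_cast hM
    have hLr : (1 : ℝ) ≤ L := by exact_mod_cast hL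
    have hM0 : (0 : ℝ) < M := by linarith
    have hL0 : (0 : ℝ) < L := by linarith
    have hNM : N < (2 * M) ^ 4 := lt_of_lt_of_le hU3 (Nat.pow_le_pow_left (by omega) 4)
    have hNL : N < (2 * L) ^ 4 := lt_of_lt_of_le hU3 (Nat.pow_le_pow_left (by omega) 4)
    have hroot : ∀ X : ℕ, 1 ≤ X → N < (2 * X) ^ 4 → (N : ℝ) ^ (1 / 4 : ℝ) ≤ 2 * X := by
      intro X _ hX
      have hX' : (N : ℝ) ≤ (2 * (X : ℝ)) ^ 4 := by exact_mod_cast hX.le
      have h3 : (N : ℝ) ^ ((1 : ℝ) / 4) ≤ ((2 * (X : ℝ)) ^ 4) ^ ((1 : ℝ) / 4) :=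
        Real.rpow_le_rpow hN0.le hX' (by norm_num)
      refine h3.trans (le_of_eq ?_)
      rw [← Real.rpow_natCast, ← Real.rpow_mul (by positivity)]
      norm_num
    set D : ℝ := (L : ℝ) * (N : ℝ) ^ (-η) with hD
    set P : ℝ := (M : ℝ) ^ (1 - τ₀) with hP
    have h1 := type_II (F := F) (a := a) h q β N N' M L P D (by positivity) (by positivity) hM hL
      (fun β l l' A B g1 g2 g3 g4 g5 g6 g7 g8 =>
        hx₂ N hNx₂ h hpos hz hh q hq hqN β M L l l' A B hNM hL (hML.trans hN') g1 g2 g3 g4 g5 g6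
          (g7.trans hN') g8) x y
    refine h1.trans ?_
    rw [hR2]
    set T : ℝ := (2 * D + 1) * M + L * P with hT
    have hT0 : 0 ≤ T := by positivity
    have hNη : 0 < (N : ℝ) ^ (-η) := Real.rpow_pos_of_pos hN0 _
    have t1 : (1 : ℝ) / L ≤ 2 * (N : ℝ) ^ (-η) := by
      have h2 := hroot L hL hNL
      have h3 : (N : ℝ) ^ η ≤ (N : ℝ) ^ (1 / 4 : ℝ) :=
        Real.rpow_le_rpow_of_exponent_le hN1 (by linarith)
      rw [Real.rpow_neg hN0.le, div_le_iff₀ hL0]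
      have h4 : 0 < (N : ℝ) ^ η := Real.rpow_pos_of_pos hN0 _
      have h5 : (N : ℝ) ^ η ≤ 2 * L := h3.trans h2
      calc (1 : ℝ) = (N : ℝ) ^ η * ((N : ℝ) ^ η)⁻¹ := by field_simp
        _ ≤ 2 * L * ((N : ℝ) ^ η)⁻¹ := by gcongr
        _ = _ := by ring
    have t2 : (M : ℝ) ^ (-τ₀) ≤ 2 * (N : ℝ) ^ (-η) := by
      have h2 := hroot M hM hNM
      have h3 : (2 * (M : ℝ)) ^ (-τ₀) ≤ ((N : ℝ) ^ (1 / 4 : ℝ)) ^ (-τ₀) :=
        Real.rpow_le_rpow_of_nonpos (by positivity) h2 (by linarith)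
      rw [← Real.rpow_mul hN0.le, Real.mul_rpow (by norm_num) hM0.le] at h3
      have h4 : (1 : ℝ) / 2 ≤ (2 : ℝ) ^ (-τ₀) := by
        calc (1 : ℝ) / 2 = (2 : ℝ) ^ (-1 : ℝ) := by rw [Real.rpow_neg_one]; norm_num
          _ ≤ _ := Real.rpow_le_rpow_of_exponent_le (by norm_num) (by linarith)
      have h5 : (N : ℝ) ^ (1 / 4 * -τ₀) ≤ (N : ℝ) ^ (-η) :=
        Real.rpow_le_rpow_of_exponent_le hN1 (by linarith)
      have h6 : 0 < (M : ℝ) ^ (-τ₀) := Real.rpow_pos_of_pos hM0 _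
      nlinarith
    have hMLr : (M : ℝ) * L ≤ 2 * N := by
      have : ((M * L : ℕ) : ℝ) ≤ ((2 * N : ℕ) : ℝ) := by exact_mod_cast hML.trans hN'
      push_cast at this; exact this
    have hMLT : (M : ℝ) * L * T ≤ 25 * ((N : ℝ) ^ 2 * (N : ℝ) ^ (-η)) := by
      have e1 : (M : ℝ) * L * T = ((M : ℝ) * L) ^ 2 *
          (2 * (N : ℝ) ^ (-η) + 1 / L + (M : ℝ) ^ (-τ₀)) := by
        have e2 : P = M * (M : ℝ) ^ (-τ₀) := by
          rw [hP, sub_eq_add_neg, Real.rpow_add hM0, Real.rpow_one]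
        rw [hT, e2, hD]
        field_simp
      rw [e1]
      calc ((M : ℝ) * L) ^ 2 * (2 * (N : ℝ) ^ (-η) + 1 / L + (M : ℝ) ^ (-τ₀)) ≤
            (2 * N) ^ 2 * (2 * (N : ℝ) ^ (-η) + 2 * (N : ℝ) ^ (-η) + 2 * (N : ℝ) ^ (-η)) := by
            gcongr
        _ = 24 * ((N : ℝ) ^ 2 * (N : ℝ) ^ (-η)) := by ring
        _ ≤ _ := by
            have : 0 ≤ (N : ℝ) ^ 2 * (N : ℝ) ^ (-η) := by positivity
            linarith
    calc (∑ m ∈ Ioc M (2 * M), ‖x m‖ ^ 2) * ((∑ l ∈ Ioc L (2 * L), ‖y l‖ ^ 2) * T)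
        ≤ (A₂ * M) * ((B₂ * L) * T) := by
          apply mul_le_mul hsa _ _ (by positivity)
          · exact mul_le_mul_of_nonneg_right hsb hT0
          · exact mul_nonneg (sum_nonneg fun _ _ => by positivity) hT0
      _ = A₂ * B₂ * ((M : ℝ) * L * T) := by ring
      _ ≤ A₂ * B₂ * (25 * ((N : ℝ) ^ 2 * (N : ℝ) ^ (-η))) :=
          mul_le_mul_of_nonneg_left hMLT (by positivity)

end Pool.Agent.N12.PH
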